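import Mathlib
import Pool.Agent.Helper240.ZFM.R3

/-!
# Chordal polynomial approximation on discs accumulating at a point

`L` is the union of a point `P` and of pairwise disjoint closed discs which converge to `P`. Every
function continuous on `L` with values in the Riemann sphere, which on every component of the
interior of `L` is either constantly `∞` or finite and holomorphic, is a uniform limit on `L`, in
the chordal metric, of polynomials.
-/

set_option autoImplicit false

open Metric Set Filter Topology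

namespace Pool.Agent.Results.MP_1b82cc_an.DiscsToPoint

/-- The Riemann sphere: the point `∞` and the finite points `fin a`, `a ∈ ℂ`. -/
inductive RS : Type where
  | infty : RS
  | fin (a : ℂ) : RS

/-- The chordal distance. -/
noncomputable def chi : RS → RS → ℝ
  | RS.infty, RS.infty => 0
  | RS.fin a, RS.infty => 1 / √(1 + ‖a‖ ^ 2)
  | RS.infty, RS.fin b => 1 / √(1 + ‖b‖ ^ 2)
  | RS.fin a, RS.fin b => ‖a - b‖ / (√(1 + ‖a‖ ^ 2) * √(1 + ‖b‖ ^ 2))

/-- Normalised homogeneous coordinates. -/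
noncomputable def vec : RS → ℂ × ℂ
  | RS.infty => (1, 0)
  | RS.fin a => (a / (√(1 + ‖a‖ ^ 2) : ℝ), 1 / (√(1 + ‖a‖ ^ 2) : ℝ))

theorem sq_pos (a : ℂ) : 0 < √(1 + ‖a‖ ^ 2) := by positivity

theorem chi_eq (x y : RS) : chi x y = ‖(vec x).1 * (vec y).2 - (vec x).2 * (vec y).1‖ := by
  rcases x with _ | a <;> rcases y with _ | b
  · simp [chi, vec]
  · have := sq_pos b
    simp only [chi, vec, one_mul, zero_mul, sub_zero, norm_div, norm_one, Complex.norm_real,
      Real.norm_eq_abs, abs_of_pos this]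
  · have := sq_pos a
    simp only [chi, vec, mul_one, mul_zero, zero_sub, norm_neg, norm_div, norm_one,
      Complex.norm_real, Real.norm_eq_abs, abs_of_pos this]
  · have ha := sq_pos a
    have hb := sq_pos b
    simp only [chi, vec]
    have : a / (√(1 + ‖a‖ ^ 2) : ℝ) * (1 / ((√(1 + ‖b‖ ^ 2) : ℝ) : ℂ)) -
        1 / ((√(1 + ‖a‖ ^ 2) : ℝ) : ℂ) * (b / (√(1 + ‖b‖ ^ 2) : ℝ)) =
        (a - b) / ((√(1 + ‖a‖ ^ 2) * √(1 + ‖b‖ ^ 2) : ℝ) : ℂ) := by
      push_cast
      have h1 : ((√(1 + ‖a‖ ^ 2) : ℝ) : ℂ) ≠ 0 := by exact_mod_cast ha.ne'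
      have h2 : ((√(1 + ‖b‖ ^ 2) : ℝ) : ℂ) ≠ 0 := by exact_mod_cast hb.ne'
      field_simp
    rw [this, norm_div, Complex.norm_real, Real.norm_eq_abs, abs_of_pos (mul_pos ha hb)]

theorem vec_norm (x : RS) : ‖(vec x).1‖ ^ 2 + ‖(vec x).2‖ ^ 2 = 1 := by
  rcases x with _ | a
  · simp [vec]
  · have ha := sq_pos a
    simp only [vec, norm_div, Complex.norm_real, Real.norm_eq_abs, abs_of_pos ha, norm_one,
      div_pow]
    rw [Real.sq_sqrt (by positivity)]
    field_simp
    ring

/-- The triangle inequality for unit vectors. -/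
theorem wedge (u v w : ℂ × ℂ) (hu : ‖u.1‖ ^ 2 + ‖u.2‖ ^ 2 = 1) (hv : ‖v.1‖ ^ 2 + ‖v.2‖ ^ 2 = 1)
    (hw : ‖w.1‖ ^ 2 + ‖w.2‖ ^ 2 = 1) :
    ‖u.1 * w.2 - u.2 * w.1‖ ≤ ‖u.1 * v.2 - u.2 * v.1‖ + ‖v.1 * w.2 - v.2 * w.1‖ := by
  have hcs : ∀ a b : ℂ × ℂ, ‖a.1‖ ^ 2 + ‖a.2‖ ^ 2 = 1 → ‖b.1‖ ^ 2 + ‖b.2‖ ^ 2 = 1 →
      ‖a.1 * (starRingEnd ℂ) b.1 + a.2 * (starRingEnd ℂ) b.2‖ ≤ 1 := by
    intro a b ha hb
    refine (norm_add_le _ _).trans ?_
    rw [norm_mul, norm_mul, RCLike.norm_conj, RCLike.norm_conj]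
    nlinarith [sq_nonneg (‖a.1‖ - ‖b.1‖), sq_nonneg (‖a.2‖ - ‖b.2‖)]
  have hvv : v.1 * (starRingEnd ℂ) v.1 + v.2 * (starRingEnd ℂ) v.2 = 1 := by
    rw [Complex.mul_conj, Complex.mul_conj, Complex.normSq_eq_norm_sq, Complex.normSq_eq_norm_sq]
    exact_mod_cast hv
  have e : u.1 * w.2 - u.2 * w.1 =
      (u.1 * v.2 - u.2 * v.1) * (w.1 * (starRingEnd ℂ) v.1 + w.2 * (starRingEnd ℂ) v.2) +
      (v.1 * w.2 - v.2 * w.1) * (u.1 * (starRingEnd ℂ) v.1 + u.2 * (starRingEnd ℂ) v.2) := by
    calc u.1 * w.2 - u.2 * w.1 = (u.1 * w.2 - u.2 * w.1) *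
          (v.1 * (starRingEnd ℂ) v.1 + v.2 * (starRingEnd ℂ) v.2) := by rw [hvv, mul_one]
      _ = _ := by ring
  rw [e]
  refine (norm_add_le _ _).trans ?_
  rw [norm_mul, norm_mul]
  have h1 := hcs w v hw hv
  have h2 := hcs u v hu hv
  have h3 := norm_nonneg (u.1 * v.2 - u.2 * v.1)
  have h4 := norm_nonneg (v.1 * w.2 - v.2 * w.1)
  nlinarith

theorem chi_triangle (x y z : RS) : chi x z ≤ chi x y + chi y z := by
  rw [chi_eq, chi_eq, chi_eq]
  exact wedge _ _ _ (vec_norm x) (vec_norm y) (vec_norm z)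

theorem chi_comm (x y : RS) : chi x y = chi y x := by
  rw [chi_eq, chi_eq, ← norm_neg]; congr 1; ring

theorem chi_self (x : RS) : chi x x = 0 := by
  rw [chi_eq]; simp [mul_comm]

/-- The Riemann sphere carries the chordal metric. -/
noncomputable instance : PseudoMetricSpace RS where
  dist := chi
  dist_self := chi_self
  dist_comm := chi_comm
  dist_triangle := chi_triangle

theorem dist_eq_chi (x y : RS) : dist x y = chi x y := rfl

theorem chi_fin_le (a b : ℂ) : chi (RS.fin a) (RS.fin b) ≤ ‖a - b‖ := by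
  have h : ∀ a : ℂ, 1 ≤ √(1 + ‖a‖ ^ 2) := fun a => by
    rw [Real.one_le_sqrt]; nlinarith [norm_nonneg a]
  show ‖a - b‖ / (√(1 + ‖a‖ ^ 2) * √(1 + ‖b‖ ^ 2)) ≤ _
  exact div_le_self (norm_nonneg _) (by nlinarith [h a, h b])

theorem exists_fin_near (x : RS) {η : ℝ} (hη : 0 < η) : ∃ a : ℂ, dist (RS.fin a) x < η := by
  rcases x with _ | a
  · refine ⟨((1 / η : ℝ) : ℂ), ?_⟩
    show 1 / √(1 + ‖((1 / η : ℝ) : ℂ)‖ ^ 2) < η
    rw [Complex.norm_real, Real.norm_eq_abs, abs_of_pos (by positivity)]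
    rw [div_lt_iff₀ (by positivity)]
    have h1 : 1 / η < √(1 + (1 / η) ^ 2) := by
      apply Real.lt_sqrt_of_sq_lt; linarith
    calc (1 : ℝ) = η * (1 / η) := by field_simp
      _ < η * √(1 + (1 / η) ^ 2) := by gcongr
  · refine ⟨a, ?_⟩
    have : dist (RS.fin a) (RS.fin a) = (0 : ℝ) := chi_self _
    exact this.symm ▸ hη

/-- The class `ℱ(L)`: the functions which are continuous on `L` for the chordal metric and which,
on every connected component of the interior of `L`, are either constantly `∞` or finite and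
holomorphic. (Functions on `L` are given by functions on `ℂ`.) -/
def InF (L : Set ℂ) (f : ℂ → RS) : Prop :=
  (∀ z ∈ L, ∀ ε : ℝ, 0 < ε → ∃ δ : ℝ, 0 < δ ∧ ∀ w ∈ L, ‖w - z‖ < δ → chi (f w) (f z) < ε) ∧
  ∀ z ∈ interior L,
    (∀ w ∈ connectedComponentIn (interior L) z, f w = RS.infty) ∨
    ∃ g : ℂ → ℂ, DifferentiableOn ℂ g (connectedComponentIn (interior L) z) ∧
      ∀ w ∈ connectedComponentIn (interior L) z, f w = RS.fin (g w)

/-! ### Topology of the complement -/

theorem rank_lt : 1 < Module.rank ℝ ℂ := by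
  rw [Complex.rank_real_complex]; exact_mod_cast one_lt_two

theorem preconn_norm {I : Set ℝ} (hI : IsPreconnected I) (hI0 : ∀ t ∈ I, 0 < t) (c : ℂ) :
    IsPreconnected {z : ℂ | ‖z - c‖ ∈ I} := by
  have h1 : IsPreconnected ((fun q : ℝ × ℂ => c + q.1 • q.2) '' (I ×ˢ sphere (0 : ℂ) 1)) := by
    refine (hI.prod (isPreconnected_sphere rank_lt 0 1)).image _ ?_
    fun_prop
  convert h1 using 1
  ext z
  simp only [mem_ofPred_eq, mem_image, mem_prod, mem_sphere_iff_norm, sub_zero, Prod.exists]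
  constructor
  · intro hz
    refine ⟨‖z - c‖, ‖z - c‖⁻¹ • (z - c), ⟨hz, ?_⟩, ?_⟩
    · rw [norm_smul, norm_inv, norm_norm, inv_mul_cancel₀ (hI0 _ hz).ne']
    · rw [smul_smul, mul_inv_cancel₀ (hI0 _ hz).ne', one_smul]; ring
  · rintro ⟨t, s, ⟨ht, hs⟩, rfl⟩
    rw [add_sub_cancel_left, norm_smul, hs, mul_one, Real.norm_eq_abs, abs_of_pos (hI0 t ht)]
    exact ht

/-- The union of a point and of some closed discs. -/
def Disks (c : ℕ → ℂ) (r : ℕ → ℝ) (P : ℂ) (T : Set ℕ) : Set ℂ :=
  {P} ∪ ⋃ n ∈ T, closedBall (c n) (r n)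

section setup

variable {c : ℕ → ℂ} {r : ℕ → ℝ} {P : ℂ}

theorem disks_compact (hconv : ∀ ε : ℝ, 0 < ε → ∃ N, ∀ n, N ≤ n → closedBall (c n) (r n) ⊆ ball P ε)
    (T : Set ℕ) : IsCompact (Disks c r P T) := by
  apply Metric.isCompact_of_isClosed_isBounded
  · rw [← isOpen_compl_iff, isOpen_iff_mem_nhds]
    intro z hz
    have hzP : z ≠ P := fun h => hz (Or.inl h)
    have hd : 0 < dist z P / 2 := half_pos (dist_pos.2 hzP)
    obtain ⟨N, hN⟩ := hconv _ hd
    have hfin : IsClosed (⋃ n ∈ {n ∈ T | n < N}, closedBall (c n) (r n)) := by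
      apply Set.Finite.isClosed_biUnion
      · exact (Set.finite_lt_nat N).subset fun n hn => hn.2
      · intro n _; exact isClosed_closedBall
    have hopen : IsOpen ((closedBall P (dist z P / 2))ᶜ ∩
        (⋃ n ∈ {n ∈ T | n < N}, closedBall (c n) (r n))ᶜ) :=
      isClosed_closedBall.isOpen_compl.inter hfin.isOpen_compl
    refine Filter.mem_of_superset (hopen.mem_nhds ⟨?_, ?_⟩) ?_
    · intro h
      rw [mem_closedBall] at h
      linarith
    · intro h
      simp only [mem_iUnion, mem_ofPred_eq] at h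
      obtain ⟨n, ⟨hnT, -⟩, hn⟩ := h
      exact hz (Or.inr (mem_iUnion₂.2 ⟨n, hnT, hn⟩))
    · rintro w ⟨hw1, hw2⟩ hw
      rcases hw with hw | hw
      · rw [mem_singleton_iff] at hw
        subst hw
        exact hw1 (mem_closedBall_self hd.le)
      · obtain ⟨n, hnT, hn⟩ := mem_iUnion₂.1 hw
        by_cases hnN : n < N
        · exact hw2 (mem_iUnion₂.2 ⟨n, ⟨hnT, hnN⟩, hn⟩)
        · exact hw1 (ball_subset_closedBall (hN n (not_lt.1 hnN) hn))
  · obtain ⟨N, hN⟩ := hconv 1 one_pos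
    have hb : Bornology.IsBounded (ball P 1 ∪ ⋃ n ∈ {n : ℕ | n < N}, closedBall (c n) (r n)) := by
      refine isBounded_ball.union ?_
      rw [Bornology.isBounded_biUnion (Set.finite_lt_nat N)]
      intro n _
      exact isBounded_closedBall
    refine hb.subset ?_
    rintro w (hw | hw)
    · rw [mem_singleton_iff] at hw
      subst hw
      exact Or.inl (mem_ball_self one_pos)
    · obtain ⟨n, hnT, hn⟩ := mem_iUnion₂.1 hw
      by_cases hnN : n < N
      · exact Or.inr (mem_iUnion₂.2 ⟨n, hnN, hn⟩)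
      · exact Or.inl (hN n (not_lt.1 hnN) hn)

theorem compl_connected (hr : ∀ n, 0 < r n)
    (hdisj : ∀ m n, m ≠ n → Disjoint (closedBall (c m) (r m)) (closedBall (c n) (r n)))
    (hconv : ∀ ε : ℝ, 0 < ε → ∃ N, ∀ n, N ≤ n → closedBall (c n) (r n) ⊆ ball P ε) :
    IsConnected (Disks c r P univ)ᶜ := by
  set L := Disks c r P univ with hL
  have hLc : IsCompact L := disks_compact hconv univ
  have hLo : IsOpen Lᶜ := hLc.isClosed.isOpen_compl
  have hnL : ∀ n, closedBall (c n) (r n) ⊆ L := fun n w hw =>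
    Or.inr (mem_iUnion₂.2 ⟨n, mem_univ n, hw⟩)
  have hPL : P ∈ L := Or.inl rfl
  refine ⟨?_, ?_⟩
  · rw [Set.nonempty_compl]
    intro h
    have := hLc.isBounded
    rw [h] at this
    exact NormedSpace.unbounded_univ ℝ ℂ this
  intro u v hu hv huv hne1 hne2
  by_contra hemp
  rw [Set.not_nonempty_iff_eq_empty] at hemp
  set A := Lᶜ ∩ u with hA
  set B := Lᶜ ∩ v with hB
  have hAo : IsOpen A := hLo.inter hu
  have hBo : IsOpen B := hLo.inter hv
  have hAB : ∀ z, z ∈ A → z ∈ B → False := by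
    intro z hz1 hz2
    have : z ∈ Lᶜ ∩ (u ∩ v) := ⟨hz1.1, hz1.2, hz2.2⟩
    rw [hemp] at this
    exact this
  -- the annuli
  have hann : ∀ n, P ∉ closedBall (c n) (r n) → ∃ δ : ℝ, 0 < δ ∧
      {z : ℂ | ‖z - c n‖ ∈ Ioo (r n) (r n + δ)} ⊆ Lᶜ := by
    intro n hn
    have hK := disks_compact hconv {m | m ≠ n}
    have hd : closedBall (c n) (r n) ⊆ (Disks c r P {m | m ≠ n})ᶜ := by
      rintro w hw (hw2 | hw2)
      · rw [mem_singleton_iff] at hw2
        exact hn (hw2 ▸ hw)
      · obtain ⟨m, hm, hw3⟩ := mem_iUnion₂.1 hw2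
        exact Set.disjoint_left.1 (hdisj m n hm) hw3 hw
    obtain ⟨δ, hδ, hsub⟩ := (isCompact_closedBall (c n) (r n)).exists_thickening_subset_open
      hK.isClosed.isOpen_compl hd
    refine ⟨δ, hδ, ?_⟩
    rw [thickening_closedBall hδ (hr n).le] at hsub
    intro z hz hzL
    have hz1 : z ∈ ball (c n) (δ + r n) := by
      rw [mem_ball, dist_eq_norm]
      have := hz.2
      linarith
    rcases hzL with hz2 | hz2
    · exact hsub hz1 (Or.inl hz2)
    · obtain ⟨m, -, hm⟩ := mem_iUnion₂.1 hz2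
      by_cases hmn : m = n
      · subst hmn
        rw [mem_closedBall, dist_eq_norm] at hm
        exact absurd hz.1 (not_lt.2 hm)
      · exact hsub hz1 (Or.inr (mem_iUnion₂.2 ⟨m, hmn, hm⟩))
  choose! δ hδ hδL using hann
  have hside : ∀ n, P ∉ closedBall (c n) (r n) →
      {z : ℂ | ‖z - c n‖ ∈ Ioo (r n) (r n + δ n)} ⊆ A ∨
      {z : ℂ | ‖z - c n‖ ∈ Ioo (r n) (r n + δ n)} ⊆ B := by
    intro n hn
    have h1 : IsPreconnected {z : ℂ | ‖z - c n‖ ∈ Ioo (r n) (r n + δ n)} :=
      preconn_norm isPreconnected_Ioo (fun t ht => (hr n).trans ht.1) (c n)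
    have h2 := h1.subset_or_subset hAo hBo
      (Set.disjoint_left.2 fun z h1 h2 => hAB z h1 h2) (fun z hz => ?_)
    · exact h2
    · have hz' := hδL n hn hz
      rcases huv hz' with h | h
      · exact Or.inl ⟨hz', h⟩
      · exact Or.inr ⟨hz', h⟩
  have hannne : ∀ n, P ∉ closedBall (c n) (r n) →
      ∃ z, z ∈ {z : ℂ | ‖z - c n‖ ∈ Ioo (r n) (r n + δ n)} := by
    intro n hn
    refine ⟨c n + ((r n + δ n / 2 : ℝ) : ℂ), ?_⟩
    have h1 := hδ n hn
    have h2 := hr n
    rw [mem_ofPred_eq, add_sub_cancel_left, Complex.norm_real, Real.norm_eq_abs,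
      abs_of_pos (by linarith)]
    constructor <;> linarith
  -- a set which contains the point, with connected complement
  obtain ⟨E, hEc, hEL, hPE, hE⟩ : ∃ E : Set ℂ, IsPreconnected Eᶜ ∧ E ⊆ L ∧ P ∈ E ∧
      ∀ n, P ∈ closedBall (c n) (r n) → closedBall (c n) (r n) ⊆ E := by
    by_cases h : ∃ n, P ∈ closedBall (c n) (r n)
    · obtain ⟨n, hn⟩ := h
      refine ⟨closedBall (c n) (r n), ?_, hnL n, hn, ?_⟩
      · have := preconn_norm (isPreconnected_Ioi (a := r n)) (fun t ht => (hr n).trans ht) (c n)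
        convert this using 1
        ext z
        simp [mem_closedBall, dist_eq_norm]
      · intro m hm
        by_cases hmn : m = n
        · subst hmn; exact subset_rfl
        · exact absurd hn (Set.disjoint_left.1 (hdisj m n hmn) hm)
    · push Not at h
      refine ⟨{P}, (isConnected_compl_singleton_of_one_lt_rank rank_lt P).isPreconnected, ?_, rfl,
        fun n hn => absurd hn (h n)⟩
      rintro _ rfl
      exact hPL
  set A' : Set ℂ := A ∪ ⋃ n ∈ {n | P ∉ closedBall (c n) (r n) ∧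
      {z : ℂ | ‖z - c n‖ ∈ Ioo (r n) (r n + δ n)} ⊆ A}, ball (c n) (r n + δ n) with hA'
  set B' : Set ℂ := B ∪ ⋃ n ∈ {n | P ∉ closedBall (c n) (r n) ∧
      {z : ℂ | ‖z - c n‖ ∈ Ioo (r n) (r n + δ n)} ⊆ B}, ball (c n) (r n + δ n) with hB'
  have hA'o : IsOpen A' := hAo.union (isOpen_biUnion fun n _ => isOpen_ball)
  have hB'o : IsOpen B' := hBo.union (isOpen_biUnion fun n _ => isOpen_ball)
  have key : ∀ (X : Set ℂ) (z : ℂ), z ∈ X ∪ ⋃ n ∈ {n | P ∉ closedBall (c n) (r n) ∧
      {z : ℂ | ‖z - c n‖ ∈ Ioo (r n) (r n + δ n)} ⊆ X}, ball (c n) (r n + δ n) →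
      z ∈ X ∨ ∃ n, P ∉ closedBall (c n) (r n) ∧
        {z : ℂ | ‖z - c n‖ ∈ Ioo (r n) (r n + δ n)} ⊆ X ∧ z ∈ closedBall (c n) (r n) := by
    rintro X z (hz | hz)
    · exact Or.inl hz
    · obtain ⟨n, ⟨hn1, hn2⟩, hz⟩ := mem_iUnion₂.1 hz
      by_cases hzr : ‖z - c n‖ ≤ r n
      · exact Or.inr ⟨n, hn1, hn2, by rwa [mem_closedBall, dist_eq_norm]⟩
      · left
        apply hn2
        rw [mem_ball, dist_eq_norm] at hz
        exact ⟨not_le.1 hzr, hz⟩
  have hdis : ∀ z, z ∈ A' → z ∈ B' → False := by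
    intro z hz1 hz2
    rcases key A z hz1 with h1 | ⟨n, hn1, hn2, hn3⟩
    · rcases key B z hz2 with h2 | ⟨m, hm1, hm2, hm3⟩
      · exact hAB z h1 h2
      · exact h1.1 (hnL m hm3)
    · rcases key B z hz2 with h2 | ⟨m, hm1, hm2, hm3⟩
      · exact h2.1 (hnL n hn3)
      · have hnm : n = m := by
          by_contra hnm
          exact Set.disjoint_left.1 (hdisj n m hnm) hn3 hm3
        subst hnm
        obtain ⟨w, hw⟩ := hannne n hn1
        exact hAB w (hn2 hw) (hm2 hw)
  have hcov : Eᶜ ⊆ A' ∪ B' := by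
    intro z hz
    by_cases hzL : z ∈ L
    · rcases hzL with hz2 | hz2
      · rw [mem_singleton_iff] at hz2
        exact absurd (hz2 ▸ hPE) hz
      · obtain ⟨n, -, hn⟩ := mem_iUnion₂.1 hz2
        by_cases hPn : P ∈ closedBall (c n) (r n)
        · exact absurd (hE n hPn hn) hz
        · have hzb : z ∈ ball (c n) (r n + δ n) :=
            closedBall_subset_ball (by linarith [hδ n hPn]) hn
          rcases hside n hPn with h | h
          · exact Or.inl (Or.inr (mem_iUnion₂.2 ⟨n, ⟨hPn, h⟩, hzb⟩))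
          · exact Or.inr (Or.inr (mem_iUnion₂.2 ⟨n, ⟨hPn, h⟩, hzb⟩))
    · rcases huv hzL with h | h
      · exact Or.inl (Or.inl ⟨hzL, h⟩)
      · exact Or.inr (Or.inl ⟨hzL, h⟩)
  obtain ⟨a, ha⟩ := hne1
  obtain ⟨b, hb⟩ := hne2
  obtain ⟨z, -, hz1, hz2⟩ := hEc A' B' hA'o hB'o hcov ⟨a, fun h => ha.1 (hEL h), Or.inl ha⟩
    ⟨b, fun h => hb.1 (hEL h), Or.inl hb⟩
  exact hdis z hz1 hz2

end setup

/-! ### Approximation -/

/-- `f` is approximated on `K` up to `η` by a function holomorphic near `K`. -/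
def Apx (K : Set ℂ) (f : ℂ → RS) (η : ℝ) : Prop :=
  ∃ (U : Set ℂ) (g : ℂ → ℂ), IsOpen U ∧ K ⊆ U ∧ DifferentiableOn ℂ g U ∧
    ∀ z ∈ K, dist (RS.fin (g z)) (f z) < η

theorem Apx.union {K K' : Set ℂ} {f : ℂ → RS} {η : ℝ} (hK : IsCompact K) (hK' : IsCompact K')
    (hd : Disjoint K K') (h : Apx K f η) (h' : Apx K' f η) : Apx (K ∪ K') f η := by
  classical
  obtain ⟨U, g, hU, hKU, hg, hgf⟩ := h
  obtain ⟨U', g', hU', hKU', hg', hgf'⟩ := h'
  obtain ⟨V, V', hV, hV', hKV, hKV', hVV⟩ := SeparatedNhds.of_isCompact_isCompact hK hK' hd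
  refine ⟨(U ∩ V) ∪ (U' ∩ V'), fun z => if z ∈ V then g z else g' z,
    (hU.inter hV).union (hU'.inter hV'), ?_, ?_, ?_⟩
  · rintro z (hz | hz)
    · exact Or.inl ⟨hKU hz, hKV hz⟩
    · exact Or.inr ⟨hKU' hz, hKV' hz⟩
  · rintro z (hz | hz)
    · have h1 : DifferentiableAt ℂ g z := (hg z hz.1).differentiableAt (hU.mem_nhds hz.1)
      refine (h1.congr_of_eventuallyEq ?_).differentiableWithinAt
      filter_upwards [hV.mem_nhds hz.2] with w hw
      exact if_pos hw
    · have h1 : DifferentiableAt ℂ g' z := (hg' z hz.1).differentiableAt (hU'.mem_nhds hz.1)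
      refine (h1.congr_of_eventuallyEq ?_).differentiableWithinAt
      filter_upwards [hV'.mem_nhds hz.2] with w hw
      exact if_neg (Set.disjoint_right.1 hVV hw)
  · rintro z (hz | hz)
    · beta_reduce
      rw [if_pos (hKV hz)]; exact hgf z hz
    · beta_reduce
      rw [if_neg (Set.disjoint_right.1 hVV (hKV' hz))]; exact hgf' z hz

/-- Approximation on a closed disc. -/
theorem apx_disc {a : ℂ} {ρ : ℝ} (hρ : 0 < ρ) {f : ℂ → RS} (hf : ContinuousOn f (closedBall a ρ))
    (hh : (∀ w ∈ ball a ρ, f w = RS.infty) ∨ ∃ g : ℂ → ℂ, DifferentiableOn ℂ g (ball a ρ) ∧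
      ∀ w ∈ ball a ρ, f w = RS.fin (g w)) {η : ℝ} (hη : 0 < η) : Apx (closedBall a ρ) f η := by
  rcases hh with hh | ⟨g, hg, hgf⟩
  · obtain ⟨b, hb⟩ := exists_fin_near RS.infty hη
    refine ⟨univ, fun _ => b, isOpen_univ, subset_univ _, differentiableOn_const b, ?_⟩
    intro z hz
    -- `f z = ∞` up to distance `0`
    have h1 : dist RS.infty (f z) = 0 := by
      have hcl : z ∈ closure (ball a ρ) := by rwa [closure_ball a hρ.ne']
      have h2 : ContinuousWithinAt f (ball a ρ) z := (hf z hz).mono ball_subset_closedBall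
      have h3 : Tendsto (fun w => dist RS.infty (f w)) (𝓝[ball a ρ] z) (𝓝 (dist RS.infty (f z))) :=
        tendsto_const_nhds.dist h2
      have h4 : Tendsto (fun w => dist RS.infty (f w)) (𝓝[ball a ρ] z) (𝓝 0) := by
        refine tendsto_const_nhds.congr' ?_
        filter_upwards [self_mem_nhdsWithin] with w hw
        rw [hh w hw, dist_self]
      have : (𝓝[ball a ρ] z).NeBot := mem_closure_iff_nhdsWithin_neBot.1 hcl
      exact tendsto_nhds_unique h3 h4
    have h5 := dist_triangle (RS.fin b) RS.infty (f z)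
    linarith
  · have huc : UniformContinuousOn f (closedBall a ρ) :=
      (isCompact_closedBall a ρ).uniformContinuousOn_of_continuous hf
    rw [Metric.uniformContinuousOn_iff] at huc
    obtain ⟨δ, hδ, hδ2⟩ := huc η hη
    obtain ⟨s, hs0, hs1, hsδ⟩ : ∃ s : ℝ, 0 < s ∧ s < 1 ∧ (1 - s) * ρ < δ := by
      refine ⟨max (1 / 2) (1 - δ / (2 * ρ)), by positivity, ?_, ?_⟩
      · apply max_lt (by norm_num)
        have : 0 < δ / (2 * ρ) := by positivity
        linarith
      · have h1 := le_max_right (1 / 2 : ℝ) (1 - δ / (2 * ρ))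
        calc (1 - max (1 / 2) (1 - δ / (2 * ρ))) * ρ ≤ (δ / (2 * ρ)) * ρ := by
              gcongr; linarith
          _ = δ / 2 := by field_simp
          _ < δ := by linarith
    refine ⟨ball a (ρ / s), fun z => g (a + s * (z - a)), isOpen_ball, ?_, ?_, ?_⟩
    · apply closedBall_subset_ball
      rw [lt_div_iff₀ hs0]; nlinarith
    · apply DifferentiableOn.comp (t := ball a ρ) hg
      · fun_prop
      · intro z hz
        rw [mem_ball, dist_eq_norm] at hz ⊢
        rw [lt_div_iff₀ hs0] at hz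
        simp only [add_sub_cancel_left, norm_mul, Complex.norm_real, Real.norm_eq_abs,
          abs_of_pos hs0]
        linarith
    · intro z hz
      have hz' := hz
      rw [mem_closedBall, dist_eq_norm] at hz'
      have h1 : a + s * (z - a) ∈ ball a ρ := by
        rw [mem_ball, dist_eq_norm, add_sub_cancel_left, norm_mul, Complex.norm_real,
          Real.norm_eq_abs, abs_of_pos hs0]
        nlinarith
      show dist (RS.fin (g (a + s * (z - a)))) (f z) < η
      rw [← hgf _ h1]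
      apply hδ2 _ (ball_subset_closedBall h1) _ hz
      rw [dist_eq_norm]
      have : a + s * (z - a) - z = ((s - 1 : ℝ) : ℂ) * (z - a) := by push_cast; ring
      rw [this, norm_mul, Complex.norm_real, Real.norm_eq_abs, abs_of_neg (by linarith)]
      have h2 : -(s - 1) * ‖z - a‖ ≤ -(s - 1) * ρ := by
        apply mul_le_mul_of_nonneg_left hz' (by linarith)
      linarith

/-- **The chordal Mergelyan property.** Let `closedBall (c n) (r n)` be pairwise disjoint closed
discs of positive radius which converge to the point `P`, and let `L` be the union of `{P}` and the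
discs. Every `f` in the class `ℱ(L)` is the uniform limit on `L`, for the chordal metric, of a
sequence of polynomials. -/
theorem result (c : ℕ → ℂ) (r : ℕ → ℝ) (P : ℂ) (hr : ∀ n, 0 < r n)
    (hdisj : ∀ m n, m ≠ n → Disjoint (closedBall (c m) (r m)) (closedBall (c n) (r n)))
    (hconv : ∀ ε : ℝ, 0 < ε → ∃ N, ∀ n, N ≤ n → ∀ z ∈ closedBall (c n) (r n), ‖z - P‖ < ε)
    (L : Set ℂ) (hL : L = {P} ∪ ⋃ n, closedBall (c n) (r n)) (f : ℂ → RS) (hf : InF L f) :
    ∃ p : ℕ → Polynomial ℂ, ∀ ε : ℝ, 0 < ε → ∃ N, ∀ n, N ≤ n → ∀ z ∈ L,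
      chi (RS.fin ((p n).eval z)) (f z) < ε := by
  classical
  have hconv' : ∀ ε : ℝ, 0 < ε → ∃ N, ∀ n, N ≤ n → closedBall (c n) (r n) ⊆ ball P ε := by
    intro ε hε
    obtain ⟨N, hN⟩ := hconv ε hε
    exact ⟨N, fun n hn z hz => by rw [mem_ball, dist_eq_norm]; exact hN n hn z hz⟩
  have hLD : L = Disks c r P univ := by rw [hL, Disks, biUnion_univ]
  have hLc : IsCompact L := hLD ▸ disks_compact hconv' univ
  have hLconn : IsConnected Lᶜ := hLD ▸ compl_connected hr hdisj hconv'
  have hPL : P ∈ L := by rw [hL]; exact Or.inl rfl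
  have hnL : ∀ n, closedBall (c n) (r n) ⊆ L := fun n w hw => by
    rw [hL]; exact Or.inr (mem_iUnion.2 ⟨n, hw⟩)
  have hfc : ContinuousOn f L := by
    intro z hz
    rw [Metric.continuousWithinAt_iff]
    intro ε hε
    obtain ⟨δ, hδ, h⟩ := hf.1 z hz ε hε
    exact ⟨δ, hδ, fun w hw hwz => h w hw (by rwa [dist_eq_norm] at hwz)⟩
  have hcontn : ∀ n, ContinuousOn f (closedBall (c n) (r n)) := fun n => hfc.mono (hnL n)
  have halt : ∀ n, (∀ w ∈ ball (c n) (r n), f w = RS.infty) ∨ ∃ g : ℂ → ℂ,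
      DifferentiableOn ℂ g (ball (c n) (r n)) ∧ ∀ w ∈ ball (c n) (r n), f w = RS.fin (g w) := by
    intro n
    have h1 : ball (c n) (r n) ⊆ interior L :=
      interior_maximal (ball_subset_closedBall.trans (hnL n)) isOpen_ball
    have h2 : ball (c n) (r n) ⊆ connectedComponentIn (interior L) (c n) :=
      (convex_ball (c n) (r n)).isPreconnected.subset_connectedComponentIn
        (mem_ball_self (hr n)) h1
    rcases hf.2 (c n) (h1 (mem_ball_self (hr n))) with h | ⟨g, hg, hgf⟩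
    · exact Or.inl fun w hw => h w (h2 hw)
    · exact Or.inr ⟨g, hg.mono h2, fun w hw => hgf w (h2 hw)⟩
  have main : ∀ η : ℝ, 0 < η → Apx L f (3 * η) := by
    intro η hη
    -- the piece near `P`
    obtain ⟨E, U, g, hU, hEU, hg, hgf, hPE, hEL, hEn⟩ : ∃ (E U : Set ℂ) (g : ℂ → ℂ), IsOpen U ∧
        E ⊆ U ∧ DifferentiableOn ℂ g U ∧ (∀ z ∈ E, dist (RS.fin (g z)) (f z) < η) ∧ P ∈ E ∧
        ((∃ n, E = closedBall (c n) (r n)) ∨ E = {P}) ∧
        ∀ n, P ∈ closedBall (c n) (r n) → closedBall (c n) (r n) = E := by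
      by_cases h : ∃ n, P ∈ closedBall (c n) (r n)
      · obtain ⟨n, hn⟩ := h
        obtain ⟨U, g, h1, h2, h3, h4⟩ := apx_disc (hr n) (hcontn n) (halt n) hη
        refine ⟨_, U, g, h1, h2, h3, h4, hn, Or.inl ⟨n, rfl⟩, ?_⟩
        intro m hm
        by_cases hmn : m = n
        · rw [hmn]
        · exact absurd hn (Set.disjoint_left.1 (hdisj m n hmn) hm)
      · push Not at h
        obtain ⟨b, hb⟩ := exists_fin_near (f P) hη
        refine ⟨{P}, univ, fun _ => b, isOpen_univ, subset_univ _, differentiableOn_const b, ?_,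
          rfl, Or.inr rfl, fun n hn => absurd hn (h n)⟩
        rintro z rfl
        exact hb
    have hPU : P ∈ U := hEU hPE
    have hgP : ContinuousAt (fun z => RS.fin (g z)) P := by
      have h1 : ContinuousAt g P := ((hg P hPU).differentiableAt (hU.mem_nhds hPU)).continuousAt
      rw [Metric.continuousAt_iff] at h1 ⊢
      intro ε hε
      obtain ⟨δ, hδ, h2⟩ := h1 ε hε
      refine ⟨δ, hδ, fun z hz => lt_of_le_of_lt (chi_fin_le _ _) ?_⟩
      have := h2 hz
      rwa [dist_eq_norm] at this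
    obtain ⟨δ₁, hδ₁, h1⟩ := Metric.continuousAt_iff.1 hgP η hη
    obtain ⟨δ₂, hδ₂, h2⟩ := Metric.continuousWithinAt_iff.1 (hfc P hPL) η hη
    obtain ⟨δ₃, hδ₃, h3⟩ := Metric.isOpen_iff.1 hU P hPU
    obtain ⟨N, hN⟩ := hconv' (min δ₁ (min δ₂ δ₃)) (by positivity)
    -- the compact set near `P`
    set K₀ : Set ℂ := E ∪ Disks c r P {n | N ≤ n} with hK₀
    have hK₀c : IsCompact K₀ := by
      refine IsCompact.union ?_ (disks_compact hconv' _)
      rcases hEL with ⟨n, rfl⟩ | rfl
      · exact isCompact_closedBall _ _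
      · exact isCompact_singleton
    have hA0 : Apx K₀ f (3 * η) := by
      refine ⟨U, g, hU, ?_, hg, ?_⟩
      · rintro z (hz | hz | hz)
        · exact hEU hz
        · rw [mem_singleton_iff] at hz
          exact hz ▸ hPU
        · obtain ⟨n, hn, hz⟩ := mem_iUnion₂.1 hz
          have := hN n hn hz
          rw [mem_ball] at this
          apply h3
          rw [mem_ball]
          exact this.trans_le ((min_le_right _ _).trans (min_le_right _ _))
      · rintro z (hz | hz | hz)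
        · linarith [hgf z hz]
        · rw [mem_singleton_iff] at hz
          subst hz
          linarith [hgf z hPE]
        · obtain ⟨n, hn, hz⟩ := mem_iUnion₂.1 hz
          have h4 := hN n hn hz
          rw [mem_ball] at h4
          have h5 : dist (RS.fin (g z)) (RS.fin (g P)) < η :=
            h1 (h4.trans_le (min_le_left _ _))
          have h6 : dist (f z) (f P) < η :=
            h2 (hnL n hz) (h4.trans_le ((min_le_right _ _).trans (min_le_left _ _)))
          have h7 := hgf P hPE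
          have h8 := dist_triangle4 (RS.fin (g z)) (RS.fin (g P)) (f P) (f z)
          rw [dist_comm (f P) (f z)] at h8
          linarith
    -- add the other discs one by one
    have hind : ∀ M : ℕ, ∃ K : Set ℂ, IsCompact K ∧ Apx K f (3 * η) ∧
        K = K₀ ∪ ⋃ n ∈ {n : ℕ | n < M ∧ ¬ closedBall (c n) (r n) ⊆ K₀},
          closedBall (c n) (r n) := by
      intro M
      induction M with
      | zero => exact ⟨K₀, hK₀c, hA0, by simp⟩
      | succ M ih =>
        obtain ⟨K, hKc, hKA, hK⟩ := ih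
        by_cases hM : closedBall (c M) (r M) ⊆ K₀
        · refine ⟨K, hKc, hKA, ?_⟩
          rw [hK]
          congr 1
          ext z
          simp only [mem_iUnion, mem_ofPred_eq, exists_prop]
          constructor
          · rintro ⟨n, ⟨hn1, hn2⟩, hz⟩
            exact ⟨n, ⟨by omega, hn2⟩, hz⟩
          · rintro ⟨n, ⟨hn1, hn2⟩, hz⟩
            refine ⟨n, ⟨?_, hn2⟩, hz⟩
            rcases Nat.lt_succ_iff_lt_or_eq.1 hn1 with h | h
            · exact h
            · subst h; exact absurd hM hn2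
        · have hdisjK : Disjoint K (closedBall (c M) (r M)) := by
            rw [hK, Set.disjoint_left]
            rintro z ((hz | hz | hz) | hz) hzM
            · apply hM
              rcases hEL with ⟨n, hEn'⟩ | hE'
              · by_cases hnM : n = M
                · subst hnM
                  exact fun w hw => Or.inl (hEn' ▸ hw)
                · rw [hEn'] at hz
                  exact absurd hzM (Set.disjoint_left.1 (hdisj n M hnM) hz)
              · rw [hE', mem_singleton_iff] at hz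
                subst hz
                exact fun w hw => Or.inl ((hEn M hzM) ▸ hw)
            · rw [mem_singleton_iff] at hz
              subst hz
              exact hM fun w hw => Or.inl ((hEn M hzM) ▸ hw)
            · obtain ⟨n, hn, hz⟩ := mem_iUnion₂.1 hz
              by_cases hnM : n = M
              · subst hnM
                exact hM fun w hw => Or.inr (Or.inr (mem_iUnion₂.2 ⟨n, hn, hw⟩))
              · exact Set.disjoint_left.1 (hdisj n M hnM) hz hzM
            · obtain ⟨n, hn, hz⟩ := mem_iUnion₂.1 hz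
              have hnM : n ≠ M := by
                have := hn.1
                omega
              exact Set.disjoint_left.1 (hdisj n M hnM) hz hzM
          refine ⟨K ∪ closedBall (c M) (r M), hKc.union (isCompact_closedBall _ _),
            hKA.union hKc (isCompact_closedBall _ _) hdisjK
              (apx_disc (hr M) (hcontn M) (halt M) (by positivity)), ?_⟩
          rw [hK, Set.union_assoc]
          congr 1
          ext z
          simp only [mem_union, mem_iUnion, mem_ofPred_eq, exists_prop]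
          constructor
          · rintro (⟨n, ⟨hn1, hn2⟩, hz⟩ | hz)
            · exact ⟨n, ⟨by omega, hn2⟩, hz⟩
            · exact ⟨M, ⟨by omega, hM⟩, hz⟩
          · rintro ⟨n, ⟨hn1, hn2⟩, hz⟩
            rcases Nat.lt_succ_iff_lt_or_eq.1 hn1 with h | h
            · exact Or.inl ⟨n, ⟨h, hn2⟩, hz⟩
            · subst h; exact Or.inr hz
    obtain ⟨K, -, hKA, hK⟩ := hind N
    have hKL : K = L := by
      rw [hK]
      apply Set.Subset.antisymm
      · rintro z ((hz | hz | hz) | hz)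
        · rcases hEL with ⟨n, hEn'⟩ | hE'
          · rw [hEn'] at hz; exact hnL n hz
          · rw [hE', mem_singleton_iff] at hz
            exact hz ▸ hPL
        · rw [mem_singleton_iff] at hz
          exact hz ▸ hPL
        · obtain ⟨n, hn, hz⟩ := mem_iUnion₂.1 hz
          exact hnL n hz
        · obtain ⟨n, hn, hz⟩ := mem_iUnion₂.1 hz
          exact hnL n hz
      · intro z hz
        rw [hL] at hz
        rcases hz with hz | hz
        · exact Or.inl (Or.inr (Or.inl hz))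
        · obtain ⟨n, hz⟩ := mem_iUnion.1 hz
          by_cases hn : N ≤ n
          · exact Or.inl (Or.inr (Or.inr (mem_iUnion₂.2 ⟨n, hn, hz⟩)))
          · by_cases hsub : closedBall (c n) (r n) ⊆ K₀
            · exact Or.inl (hsub hz)
            · exact Or.inr (mem_iUnion₂.2 ⟨n, ⟨not_le.1 hn, hsub⟩, hz⟩)
    rw [← hKL]
    exact hKA
  have hpoly : ∀ n : ℕ, ∃ p : Polynomial ℂ, ∀ z ∈ L,
      chi (RS.fin (p.eval z)) (f z) < 1 / ((n : ℝ) + 1) := by
    intro n
    have hn : (0 : ℝ) < 1 / ((n : ℝ) + 1) := by positivity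
    obtain ⟨U, g, hU, hLU, hg, hgf⟩ := main (1 / ((n : ℝ) + 1) / 6) (by positivity)
    obtain ⟨p, hp⟩ := ZFM.J_r3.runge hLc hLconn hU hLU g hg (1 / ((n : ℝ) + 1) / 2) (by positivity)
    refine ⟨p, fun z hz => ?_⟩
    have h1 := hp z hz
    have h2 := hgf z hz
    have h3 := chi_fin_le (p.eval z) (g z)
    rw [← norm_neg, neg_sub] at h3
    have h4 := chi_triangle (RS.fin (p.eval z)) (RS.fin (g z)) (f z)
    rw [dist_eq_chi] at h2
    linarith
  choose p hp using hpoly
  refine ⟨p, fun ε hε => ?_⟩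
  obtain ⟨N, hN⟩ := exists_nat_one_div_lt hε
  refine ⟨N, fun n hn z hz => (hp n z hz).trans (lt_of_le_of_lt ?_ hN)⟩
  apply one_div_le_one_div_of_le (by positivity)
  have : (N : ℝ) ≤ n := by exact_mod_cast hn
  linarith

end Pool.Agent.Results.MP_1b82cc_an.DiscsToPoint
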